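import Pool.Agent.J6H78.HS.Final

/-!
# Q2: saturation and semi-saturation of the square in the hypercube differ asymptotically

The starting file `Separation` shows `sat(Q_n, Q_2) ≥ 3.1 * 2 ^ n` for all large `n`, but bounds
`s-sat(Q_n, Q_2)` only for the dimensions `n = 2 (2 ^ k - 1)`, where it uses Hamming codes.  Here we
show `s-sat(Q_n, Q_2) ≤ 3.05 * 2 ^ n` for ALL large `n`.

A full colouring of `Q_m` is a colouring for which every vertex sees every colour within distance
one.  Hamming codes give full colourings of `Q_m`, `m = 2 ^ k - 1`, with `m + 1` colours.  We merge the
`128` colours for `m = 127` to `127` colours, regarded as the elements of the field `F_127`, and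
combine blocks with a `127`-ary Hamming code: this gives a full colouring of `Q_m` for
`m = 127 (127 ^ s - 1) / 126` with `127 ^ s` colours.  A doubling construction gives full colourings for
the dimensions `(m + 1) 2 ^ j - 1` with `127 ^ s 2 ^ j` colours.  These dimensions are so dense that
each large `m` has a full colouring of some `Q_m'`, `m' ≤ m`, with at least `(126 / 128) m` colours.
All edges of `Q_n` which meet one of two colour classes, in the two halves of the directions, form
a semi-saturated graph with at most `(384 / 126) 2 ^ n` edges.
-/

namespace Pool.Agent.Results.MP_71830d_co.AsymptoticSeparation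

open Filter
open Pool.Agent.Results.MP_71830d_co.Separation (sSat satNum)

/-- Q2, positive answer: the upper limit of `s-sat(Q_n, Q_2) / 2 ^ n` is strictly smaller than the
lower limit of `sat(Q_n, Q_2) / 2 ^ n` (both limits over all `n`, in the extended real numbers). -/
theorem result :
    limsup (fun n : ℕ => (((sSat n : ℝ) / 2 ^ n : ℝ) : EReal)) atTop <
      liminf (fun n : ℕ => (((satNum n : ℝ) / 2 ^ n : ℝ) : EReal)) atTop :=
  Pool.Agent.J6H78.HS.separation

end Pool.Agent.Results.MP_71830d_co.AsymptoticSeparation
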